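import Pool.Agent.H17.CI.TargetsB
import Pool.Agent.H66.VG.Base

/-! Row PST: codimension of `YlT`. -/

set_option autoImplicit false

namespace Pool.Agent.H56.CI

open MvPolynomial SC Pool.Agent.H27.LV Pool.Agent.H17.VG Pool.Agent.H17.CI
open Pool.Agent.H66.VG (opFL opFL_apply opVL opVL_apply resL resL_apply mem_degreeLT key
  finrank_degreeLT)

section Pi

variable {K : Type} [Field K] {ι : Type} {M : Type} [AddCommGroup M] [Module K M]

/-- the product of submodules -/
def piE (p : ι → Submodule K M) : (Submodule.pi Set.univ p) ≃ₗ[K] (∀ i, p i) where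
  toFun v i := ⟨v.1 i, v.2 i (Set.mem_univ i)⟩
  invFun v := ⟨fun i => (v i).1, fun i _ => (v i).2⟩
  left_inv _ := rfl
  right_inv _ := rfl
  map_add' _ _ := rfl
  map_smul' _ _ := rfl

theorem pi_fd [Finite ι] (p : ι → Submodule K M) (h : ∀ i, FiniteDimensional K (p i)) :
    FiniteDimensional K (Submodule.pi Set.univ p) :=
  Module.Finite.equiv (piE p).symm

theorem pi_finrank [Fintype ι] (p : ι → Submodule K M) (h : ∀ i, FiniteDimensional K (p i)) :
    Module.finrank K (Submodule.pi Set.univ p) = ∑ i, Module.finrank K (p i) := by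
  rw [LinearEquiv.finrank_eq (piE p)]
  exact Module.finrank_pi_fintype K

end Pi

section Op

variable {R K : Type} [Field R] [Field K] [Algebra R K] {n : ℕ} {ι : Type}

/-- the symbol as a linear map -/
noncomputable def symL (hOP : T_OP) (F : Tup ι K n) (i : ι) :
    (Op R K n × (ι → K)) →ₗ[K] MvPolynomial (Fin (n + 1)) K :=
  opFL hOP (F i) ∘ₗ LinearMap.fst K _ _ +
    ((LinearMap.toSpanSingleton K _ (F i)) ∘ₗ LinearMap.proj i) ∘ₗ LinearMap.snd K _ _

theorem symL_apply (hOP : T_OP) (F : Tup ι K n) (i : ι) (v : Op R K n × (ι → K)) :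
    symL hOP F i v = opF v.1 (F i) + C (v.2 i) * F i := by
  simp [symL, opFL_apply, MvPolynomial.smul_eq_C_mul]

theorem symL_homog (hOP : T_OP) {e : ι → ℕ} {F : Tup ι K n}
    (hF : ∀ i, (F i).IsHomogeneous (e i + 1)) (i : ι) (v : Op R K n × (ι → K)) :
    (symL hOP F i v).IsHomogeneous (e i + 1) := by
  rw [symL_apply]
  refine ((hOP R K n (e i + 1) v.1 0 (F i) (F i) 0 0 0).2.2.2.2 (hF i)).add ?_
  have := (isHomogeneous_C (Fin (n + 1)) (v.2 i)).mul (hF i)
  rwa [zero_add] at this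

theorem indep_xy {x y : Fin (n + 1) → K} (hx : x 0 = 1) (hy0 : y 0 = 0) (hy : y ≠ 0) :
    Indep x y := by
  unfold Indep
  rw [LinearIndependent.pair_iff]
  intro s t h
  have h1 := congrFun h 0
  simp only [Pi.add_apply, Pi.smul_apply, smul_eq_mul, hx, hy0, mul_one, mul_zero, add_zero,
    Pi.zero_apply] at h1
  rw [h1, zero_smul, zero_add] at h
  exact ⟨h1, (smul_eq_zero.1 h).resolve_right hy⟩

theorem eval_Il {e : ℕ} {x y : Fin (n + 1) → K} {G : MvPolynomial (Fin (n + 1)) K}
    (hG : G ∈ Il e x y) : eval x G = 0 := by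
  have h : Il e x y ≤ LinearMap.ker (MvPolynomial.aeval x :
      MvPolynomial (Fin (n + 1)) K →ₐ[K] K).toLinearMap := by
    unfold Il
    rw [Submodule.span_le]
    rintro G ⟨ξ, Q, h1, -, -, rfl⟩
    rw [SetLike.mem_coe, LinearMap.mem_ker, AlgHom.toLinearMap_apply, map_mul]
    have h2 : aeval x (lin ξ) = ∑ i, ξ i * x i := by
      simp [lin]
    rw [h2, h1, zero_mul]
  have h3 := h hG
  rw [LinearMap.mem_ker, AlgHom.toLinearMap_apply] at h3
  rw [MvPolynomial.aeval_def, MvPolynomial.eval₂_eq_eval_map] at h3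
  simpa using h3

theorem mem_UtT {F : Tup ι K n} {x : Fin (n + 1) → K} {W : Submodule K (Tup ι K n)}
    {τ : Op R K n} {l : ι → K} {G : Tup ι K n} (hG : G ∈ W) (h : Sym F τ l G) :
    opV τ x ∈ UtT R F x W := Submodule.subset_span (Or.inl ⟨τ, l, G, hG, h, rfl⟩)

theorem self_mem_UtT (F : Tup ι K n) (x : Fin (n + 1) → K) (W : Submodule K (Tup ι K n)) :
    x ∈ UtT R F x W := Submodule.subset_span (Or.inr rfl)

end Op

theorem pf_PST (hOP : T_OP) (hRS : T_RS) (hIL : T_IL) (hEVT : T_EVT) (hSUT : T_SUT) :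
    T_PST := by
  intro R K _ _ _ _ n ι _ e F D Z x y hS hx hy0 hy m hm
  have hxy := indep_xy hx.one hy0 hy
  set U := UtT R F x (IlT e x y) with hU
  -- triples
  let S1 : Submodule K ((ι → Polynomial K) × (Op R K n × (ι → K))) :=
    { carrier := {v | (∀ i, v.1 i ∈ Polynomial.degreeLT K (e i + 1)) ∧ Aff v.2.1 ∧
        ∀ i, resL x y (symL hOP F i v.2) = Polynomial.X * v.1 i}
      zero_mem' := by
        refine ⟨fun i => Submodule.zero_mem _, fun j => rfl, fun i => ?_⟩
        simp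
      add_mem' := by
        rintro v w ⟨h1, h2, h3⟩ ⟨k1, k2, k3⟩
        refine ⟨fun i => Submodule.add_mem _ (h1 i) (k1 i), fun j => ?_, fun i => ?_⟩
        · show v.2.1.2 0 j + w.2.1.2 0 j = 0
          rw [h2 j, k2 j, add_zero]
        · rw [Prod.snd_add, map_add, map_add, h3 i, k3 i, Prod.fst_add, Pi.add_apply, mul_add]
      smul_mem' := by
        rintro c v ⟨h1, h2, h3⟩
        refine ⟨fun i => Submodule.smul_mem _ _ (h1 i), fun j => ?_, fun i => ?_⟩
        · show c * v.2.1.2 0 j = 0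
          rw [h2 j, mul_zero]
        · rw [Prod.smul_snd, map_smul, map_smul, h3 i, Prod.smul_fst, Pi.smul_apply,
            mul_smul_comm] }
  have hS1 : ∀ v : (ι → Polynomial K) × (Op R K n × (ι → K)), v ∈ S1 ↔
      (∀ i, (v.1 i).natDegree ≤ e i) ∧ ∃ G : Tup ι K n, Sym F v.2.1 v.2.2 G ∧
        ∀ i, res x y (G i) = Polynomial.X * v.1 i := by
    intro v
    constructor
    · rintro ⟨h1, h2, h3⟩
      refine ⟨fun i => mem_degreeLT.1 (h1 i), fun i => symL hOP F i v.2,
        ⟨h2, fun i => (symL_apply hOP F i v.2).symm⟩, h3⟩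
    · rintro ⟨h1, G, ⟨h2, h3⟩, h4⟩
      refine ⟨fun i => mem_degreeLT.2 (h1 i), h2, fun i => ?_⟩
      rw [symL_apply, h3 i]
      exact h4 i
  let S2 : Submodule K ((ι → Polynomial K) × (Op R K n × (ι → K))) :=
    S1 ⊓ U.comap (opVL hOP x ∘ₗ LinearMap.fst K _ _ ∘ₗ LinearMap.snd K _ _)
  have hS2 : ∀ v : (ι → Polynomial K) × (Op R K n × (ι → K)), v ∈ S2 ↔
      ((∀ i, (v.1 i).natDegree ≤ e i) ∧ ∃ G : Tup ι K n, Sym F v.2.1 v.2.2 G ∧
        ∀ i, res x y (G i) = Polynomial.X * v.1 i) ∧ opV v.2.1 x ∈ U := by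
    intro v
    rw [Submodule.mem_inf, hS1, Submodule.mem_comap]
    rfl
  have hYl : ∀ P, P ∈ YlT R e F x y U ↔ (∀ i, (P i).natDegree ≤ e i) ∧
      ∃ (τ : Op R K n) (l : ι → K) (G : Tup ι K n), Sym F τ l G ∧
        (∀ i, res x y (G i) = Polynomial.X * P i) ∧ opV τ x ∈ U := by
    intro P
    constructor
    · intro hP
      have h1 : YlT R e F x y U ≤ S2.map (LinearMap.fst K _ _) := by
        unfold YlT
        rw [Submodule.span_le]
        rintro P ⟨h2, τ, l, G, h3, h4, h5⟩
        exact ⟨(P, (τ, l)), (hS2 _).2 ⟨⟨h2, G, h3, h4⟩, h5⟩, rfl⟩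
      obtain ⟨v, hv, rfl⟩ := h1 hP
      obtain ⟨⟨h2, G, h3, h4⟩, h5⟩ := (hS2 v).1 hv
      exact ⟨h2, v.2.1, v.2.2, G, h3, h4, h5⟩
    · intro hP
      exact Submodule.subset_span hP
  set PI : Submodule K (ι → Polynomial K) :=
    Submodule.pi Set.univ fun i => Polynomial.degreeLT K (e i + 1) with hPI
  have hPIfd : FiniteDimensional K PI := pi_fd _ fun i => inferInstance
  have hle : YlT R e F x y U ≤ PI := by
    intro P hP i _
    exact mem_degreeLT.2 (((hYl P).1 hP).1 i)
  have hfd : FiniteDimensional K (YlT R e F x y U) := Submodule.finiteDimensional_of_le hle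
  refine ⟨fun P hP => (hYl P).1 hP, hfd, ?_⟩
  obtain ⟨hE1, -, -, hE4, hE5⟩ := hEVT R K n ι e F D Z x hS hx
  have hUle : U ≤ TxT Z F x := hE5 (IlT e x y) fun G hG i _ => eval_Il (hG i (Set.mem_univ i))
  let α : S1 →ₗ[K] (ι → Polynomial K) := LinearMap.fst K _ _ ∘ₗ S1.subtype
  let β : S1 →ₗ[K] (Fin (n + 1) → K) ⧸ U :=
    U.mkQ ∘ₗ opVL hOP x ∘ₗ LinearMap.fst K _ _ ∘ₗ LinearMap.snd K _ _ ∘ₗ S1.subtype
  have hα : ∀ v : S1, α v = v.1.1 := fun v => rfl
  have hβ : ∀ v : S1, β v = U.mkQ (opV v.1.2.1 x) := fun v => rfl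
  have h := key α β PI (YlT R e F x y U) ⊥ ((TxT Z F x).map U.mkQ) hle
    (by
      intro v i _
      rw [hα]
      exact mem_degreeLT.2 (((hS1 _).1 v.2).1 i)) (by
      intro v hv
      rw [hα] at hv
      obtain ⟨h1, G, hG, h2⟩ := (hS1 _).1 v.2
      obtain ⟨h3, τ', l', G', hG', h4, h5⟩ := (hYl _).1 hv
      rw [hβ, Submodule.mem_bot, Submodule.mkQ_apply, Submodule.Quotient.mk_eq_zero]
      have e1 : ∀ i, symL hOP F i v.1.2 = G i := fun i => by
        rw [symL_apply]
        exact hG.2 i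
      have e2 : ∀ i, symL hOP F i (τ', l') = G' i := fun i => by
        rw [symL_apply]
        exact hG'.2 i
      have e3 : ∀ i, symL hOP F i (v.1.2 - (τ', l')) = G i - G' i := fun i => by
        rw [map_sub, e1, e2]
      have h6 : (fun i => G i - G' i) ∈ IlT e x y := by
        intro i _
        apply hIL K n (e i) x y hxy
        · show (G i - G' i).IsHomogeneous _
          rw [← e3]
          exact symL_homog hOP hS.homog i _
        · rw [← resL_apply, map_sub, resL_apply, resL_apply, h2, h4, sub_self]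
      have h6' : Sym F (v.1.2 - (τ', l')).1 (v.1.2 - (τ', l')).2 (fun i => G i - G' i) := by
        refine ⟨fun j => ?_, fun i => ?_⟩
        · show v.1.2.1.2 0 j - τ'.2 0 j = 0
          rw [hG.1 j, hG'.1 j, sub_zero]
        · show _ = G i - G' i
          rw [← e3 i, symL_apply]
      have h7 := mem_UtT (x := x) h6 h6'
      have h8 : opV v.1.2.1 x = opV (v.1.2 - (τ', l')).1 x + opV τ' x := by
        rw [← opVL_apply hOP, ← opVL_apply hOP, ← opVL_apply hOP, Prod.fst_sub, map_sub]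
        abel
      rw [h8]
      exact U.add_mem h7 h5) (by
      intro q hq
      obtain ⟨w, hw, rfl⟩ := hq
      obtain ⟨τ, l, G, c, h1, h2, h2'⟩ := hSUT R K n ι e F D Z x hS hx w hw
      have hP : ∀ i, ∃ P : Polynomial K, P.natDegree ≤ e i ∧
          res x y (G i) = Polynomial.X * P := by
        intro i
        have h3 : (G i).IsHomogeneous (e i + 1) := by
          rw [← h1.2 i]
          have := symL_homog hOP hS.homog i (τ, l)
          rwa [symL_apply] at this
        have h4 := hRS K n (e i + 1) (G i) 0 0 0 0 x y 0 0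
        obtain ⟨-, -, -, -, -, -, -, h5, -, -, -, h6, -⟩ := h4
        rw [h2 i] at h5
        have h7 := h6 h3
        obtain ⟨P, hP⟩ := Polynomial.X_dvd_iff.2 h5
        refine ⟨P, ?_, hP⟩
        by_cases hP0 : P = 0
        · rw [hP0]; simp
        · rw [hP, Polynomial.natDegree_X_mul hP0] at h7
          omega
      choose P hP1 hP2 using hP
      refine ⟨⟨(P, (τ, l)), (hS1 _).2 ⟨hP1, G, h1, hP2⟩⟩, ?_⟩
      rw [hβ]
      simp only
      rw [h2']
      simp only [map_add, map_smul]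
      have h8 : U.mkQ x = 0 := by
        rw [Submodule.mkQ_apply, Submodule.Quotient.mk_eq_zero]
        exact self_mem_UtT F x _
      rw [h8, smul_zero, add_zero])
  have hPIr : Module.finrank K PI = ∑ i, (e i + 1) := by
    rw [hPI, pi_finrank _ fun i => inferInstance]
    exact Finset.sum_congr rfl fun i _ => finrank_degreeLT (e i + 1)
  have hT : Module.finrank K ((TxT Z F x).map U.mkQ) + Module.finrank K U =
      Module.finrank K (TxT Z F x) := by
    have h1 := LinearMap.finrank_range_add_finrank_ker (U.mkQ ∘ₗ (TxT Z F x).subtype)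
    have h2 : LinearMap.range (U.mkQ ∘ₗ (TxT Z F x).subtype) = (TxT Z F x).map U.mkQ := by
      rw [LinearMap.range_comp, Submodule.range_subtype]
    have h3 : LinearMap.ker (U.mkQ ∘ₗ (TxT Z F x).subtype) = U.comap (TxT Z F x).subtype := by
      rw [LinearMap.ker_comp, Submodule.ker_mkQ]
    rw [h2, h3, LinearEquiv.finrank_eq (Submodule.comapSubtypeEquivOfLe hUle)] at h1
    exact h1
  rw [finrank_bot, zero_add, hPIr] at h
  omega

end Pool.Agent.H56.CI
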